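import Pool.Agent.Run7.h872.SG.Cen

/-!
# Relative Artin presentations and singular Artin groups

`C` is any class of groups with the closure properties `ClosedE C` (it contains `ℤ`; it is closed under
subgroups, finite direct products, free products, overgroups of finite index and directed colimits; and
it satisfies the extension criterion of the Farrell-Jones conjecture) which contains the Coxeter groups
of finite rank. All this is published for the class of the groups which satisfy the Full Farrell-Jones
Conjecture (K- and L-theory, coefficients in additive categories, finite wreath products).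

Let `A` be an arbitrary group. We consider groups `G` which arise from `A` by adding generators `t_i`,
`i ∈ I`, and relations between their conjugates with elements of `A`:
* conjugation relations `u t_i u⁻¹ = t_j` with `u ∈ A`;
* braid relations of length `m ≥ 2` between `u t_i u⁻¹` and `v t_j v⁻¹` with `u, v ∈ A` (for `m = 2` the
  conjugates commute);
* powers `t_i ^ e_i = 1` with even exponents (`e_i = 0`: no relation), equal for generators which are
  joined by a conjugation relation or by a braid relation of odd length.

There may be any number of new generators and relations, the elements `u, v` are arbitrary. A formal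
conjugate is a class of pairs `(a, i)`, `a ∈ A`, `i ∈ I`, for the equivalence relation generated by
`(a u, i) ~ (a, j)` for the relations `u t_i u⁻¹ = t_j`. We only assume that the translates of the given braid
relations do not give two different lengths for two formal conjugates. The formal conjugates with these
lengths as labels (infinity if there is none) form a Coxeter matrix `matrix`, of infinite rank in general.

**Theorem.**
* (1) `G` is in `C` if and only if `A` and the irreducible finite rank parabolic subgroups without infinite
  labels of the Artin (Shephard) group of `matrix` are in `C`.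
* (2) If copies `K_i` of a group `K` are added instead of the `t_i`, with conjugation relations
  `u k_i u⁻¹ = k_j` for all `k ∈ K` and with commutation relations `[u K_i u⁻¹, v K_j v⁻¹] = 1`, and if `K` is
  commutative or no commutation relation joins a formal conjugate to itself, then `G` is in `C` if and only
  if `A` and `K` are in `C`. Here `C` need not contain the Coxeter groups.
* (3) For all subsets `S` and `D` of `A`, `⟨A, K | [h, k] = 1, [k, d l d⁻¹] = 1 (h ∈ S, d ∈ D, k, l ∈ K)⟩` is in
  `C` if and only if `A` and `K` are in `C`, if `K` is commutative or `D` does not meet the subgroup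
  generated by `S`.
* (4) For every Coxeter matrix `M`, of any rank, the singular Artin group of `M` is in `C` if and only if
  the Artin group of `M` is in `C`; the same holds if the relations `τ_i ^ p = 1` are added.

In particular (4) shows that the singular braid groups of Birman and Baez (with the relations
`σ_i τ_i = τ_i σ_i`, `σ_i σ_j τ_i = τ_j σ_i σ_j` for `|i - j| = 1`, and commutation for `|i - j| ≥ 2`), and more
generally the singular Artin groups of Corran whose Artin group is known to satisfy the Full Farrell-Jones
Conjecture (for instance of FC type or of large type), satisfy the Full Farrell-Jones Conjecture, with all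
their subgroups. By (1) and (2) the same holds for the singular virtual braid groups (over `VB_n`), and (1)
contains the virtual Artin groups (over the Coxeter group `A`) in their original presentation.

Outline of the proof. The group `A` acts on the set of the formal conjugates. By the universal properties
`G` is isomorphic to the semidirect product `N ⋊ A`, where `N` is the Shephard group of `matrix` (in (2):
the graph product of copies of `K` over the graph of the commutation relations), on which `A` acts by
permuting the formal conjugates. Singular Artin groups are the case that `A` is the Artin group, with one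
new generator for each `σ_i` (this decomposition is due to Godelle and Paris). The orbits and the number of
orbits of `A` may be infinite and the stabilizers are arbitrary; so the theorems on graph-wreath products
(`Run7.h528.PP.gpe`) and on Shephard groups of infinite rank with groups of symmetries
(`Run7.h952.AW.semi_sh`) of this project apply.
-/

set_option autoImplicit false

namespace Pool.Agent.Results.MP_9d1ffa_al.SingularArtinGroups

open Pool.Agent.Y110.FJ (ClosedE)

/-- the product `a b a ...` with `m` factors -/
def altProd {G : Type} [Monoid G] (a b : G) (m : ℕ) : G :=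
  ((List.range m).map (fun k => if Even k then a else b)).prod

/-- the braid relators of the Coxeter matrix `M` (the entry `0` stands for infinity: no relation), and
the powers of the generators with the exponents `e` (`0` stands for no relation) -/
def relators {B : Type} (M : CoxeterMatrix B) (e : B → ℕ) : Set (FreeGroup B) :=
  {r | (∃ i j : B, r = altProd (FreeGroup.of i) (FreeGroup.of j) (M i j) *
    (altProd (FreeGroup.of j) (FreeGroup.of i) (M i j))⁻¹) ∨ ∃ i : B, r = FreeGroup.of i ^ e i}

/-- the Shephard group -/
abbrev Shephard {B : Type} (M : CoxeterMatrix B) (e : B → ℕ) : Type :=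
  PresentedGroup (relators M e)

/-- the Artin group -/
abbrev Artin {B : Type} (M : CoxeterMatrix B) : Type := Shephard M (fun _ => 0)

/-- restriction of a Coxeter matrix along an injective map -/
def restrict {A B : Type} (M : CoxeterMatrix B) (ι : A → B) (hι : Function.Injective ι) :
    CoxeterMatrix A where
  M := Matrix.of fun i j => M (ι i) (ι j)
  isSymm := by
    ext i j
    simp only [Matrix.transpose_apply, Matrix.of_apply]
    exact M.symmetric _ _
  diagonal i := by simp
  off_diagonal i i' h := by
    simp only [Matrix.of_apply]
    exact M.off_diagonal _ _ (fun h' => h (hι h'))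

/-- The irreducible standard parabolic subgroups of finite rank without infinite labels are in `C`. -/
def ParabolicsIn (C : ∀ (G : Type) [Group G], Prop) {B : Type} (M : CoxeterMatrix B)
    (e : B → ℕ) : Prop :=
  ∀ (A : Type) [Finite A] [Nonempty A] (ι : A → B) (hι : Function.Injective ι),
    (∀ i j, M (ι i) (ι j) ≠ 0) →
    (∀ S : Set A, S.Nonempty → Sᶜ.Nonempty → ∃ x ∈ S, ∃ y, y ∉ S ∧ M (ι x) (ι y) ≠ 2) →
    C (Shephard (restrict M ι hι) (e ∘ ι))

section relative

variable {A I : Type} [Group A]

/-- the data of a relative presentation over the group `A` with new generators `t_i`, `i ∈ I` -/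
structure Data (A I : Type) where
  /-- `conj u i j` stands for the relation `u t_i u⁻¹ = t_j` -/
  conj : A → I → I → Prop
  /-- `braid m u i v j` stands for the braid relation of length `m` of `u t_i u⁻¹` and `v t_j v⁻¹` -/
  braid : ℕ → A → I → A → I → Prop
  /-- the exponents: `t_i ^ exp i = 1` -/
  exp : I → ℕ

/-- the conjugate of the new generator `t_i` with `u` in the free product of `A` and the free group -/
def cg (u : A) (i : I) : Monoid.Coprod A (FreeGroup I) :=
  Monoid.Coprod.inl u * Monoid.Coprod.inr (FreeGroup.of i) * (Monoid.Coprod.inl u)⁻¹

/-- the relators -/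
def Data.relators (D : Data A I) : Set (Monoid.Coprod A (FreeGroup I)) :=
  {r | (∃ u i j, D.conj u i j ∧ r = cg u i * (Monoid.Coprod.inr (FreeGroup.of j))⁻¹) ∨
    (∃ m u i v j, D.braid m u i v j ∧
      r = altProd (cg u i) (cg v j) m * (altProd (cg v j) (cg u i) m)⁻¹) ∨
    ∃ i, r = Monoid.Coprod.inr (FreeGroup.of i) ^ D.exp i}

/-- the group which arises from `A` by adding the generators `t_i` and the relations in `D` -/
abbrev Data.Extension (D : Data A I) : Type :=
  Monoid.Coprod A (FreeGroup I) ⧸ Subgroup.normalClosure D.relators

/-- the formal conjugates of the new generators: the classes of the pairs `(a, i)` for the equivalence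
relation generated by `(a u, i) ~ (a, j)` for the relations `u t_i u⁻¹ = t_j` -/
def Conjugates (conj : A → I → I → Prop) : Type :=
  Quot (fun x y : A × I => ∃ a u i j, conj u i j ∧ x = (a * u, i) ∧ y = (a, j))

/-- the formal conjugate of `t_i` with `a` -/
def Conjugates.mk (conj : A → I → I → Prop) (a : A) (i : I) : Conjugates conj := Quot.mk _ (a, i)

/-- a translate of a braid relation of length `m` holds for the formal conjugates `x` and `y` -/
def Data.Label (D : Data A I) (m : ℕ) (x y : Conjugates D.conj) : Prop :=
  ∃ a u i v j, (D.braid m u i v j ∨ D.braid m v j u i) ∧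
    x = Conjugates.mk D.conj (a * u) i ∧ y = Conjugates.mk D.conj (a * v) j

/-- the conditions on the data -/
structure Data.Consistent (D : Data A I) : Prop where
  two : ∀ m u i v j, D.braid m u i v j → 2 ≤ m
  unique : ∀ (x y : Conjugates D.conj) (m m' : ℕ), x ≠ y → D.Label m x y → D.Label m' x y → m = m'
  even : ∀ i, Even (D.exp i)
  conj : ∀ u i j, D.conj u i j → D.exp i = D.exp j
  odd : ∀ m u i v j, D.braid m u i v j → Odd m → D.exp i = D.exp j

theorem Data.Consistent.good {D : Data A I} (h : D.Consistent) :
    Run7.h872.SG.Good D.conj D.braid D.exp :=
  ⟨h.two, h.unique, h.even, h.conj, h.odd⟩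

open Classical in
/-- the Coxeter matrix of the formal conjugates: the label of two different formal conjugates is `m` if a
translate of a braid relation of length `m` holds for them, and infinity (`0`) if there is none -/
noncomputable def Data.matrix (D : Data A I) (h : D.Consistent) :
    CoxeterMatrix (Conjugates D.conj) where
  M := Matrix.of fun x y => if x = y then 1 else
    if h : ∃ m, D.Label m x y then h.choose else 0
  isSymm := (Run7.h872.SG.mat h.good).isSymm
  diagonal := (Run7.h872.SG.mat h.good).diagonal
  off_diagonal := (Run7.h872.SG.mat h.good).off_diagonal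

/-- the exponents of the formal conjugates -/
def Data.exponent (D : Data A I) (h : D.Consistent) (x : Conjugates D.conj) : ℕ :=
  Quot.lift (fun p : A × I => D.exp p.2) (by
    rintro _ _ ⟨a, u, i, j, h', rfl, rfl⟩
    exact h.conj u i j h') x

end relative

/-- (1) relative Shephard presentations -/
def RelativePresentations (C : ∀ (G : Type) [Group G], Prop) : Prop :=
  ∀ (A I : Type) [Group A] (D : Data A I) (h : D.Consistent),
    C D.Extension ↔ C A ∧ ParabolicsIn C (D.matrix h) (D.exponent h)

section gp

variable {A I K : Type} [Group A] [Group K]

/-- the conjugate of the element `k` of the copy `K_i` with `u` in the free product of `A` and the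
copies of `K` -/
def kc (u : A) (i : I) (k : K) : Monoid.Coprod A (Monoid.CoprodI fun _ : I => K) :=
  Run7.h872.SG.ca A I K u * Run7.h872.SG.ck A K i k * (Run7.h872.SG.ca A I K u)⁻¹

/-- the relators `u k_i u⁻¹ = k_j` and `[u k_i u⁻¹, v l_j v⁻¹] = 1` -/
def kRelators (conj : A → I → I → Prop) (comm : A → I → A → I → Prop) (K : Type) [Group K] :
    Set (Monoid.Coprod A (Monoid.CoprodI fun _ : I => K)) :=
  {r | (∃ u i j k, conj u i j ∧ r = kc u i k * (Run7.h872.SG.ck A K j k)⁻¹) ∨
    ∃ u i v j k l, comm u i v j ∧ r = (kc u i k * kc v j l) * (kc v j l * kc u i k)⁻¹}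

/-- (2) relative graph products -/
def RelativeGraphProducts (C : ∀ (G : Type) [Group G], Prop) : Prop :=
  ∀ (A I : Type) [Group A] [Nonempty I] (conj : A → I → I → Prop) (comm : A → I → A → I → Prop)
    (K : Type) [Group K],
    ((∀ k l : K, k * l = l * k) ∨
      ∀ u i v j, comm u i v j → Conjugates.mk conj u i ≠ Conjugates.mk conj v j) →
    (C (Monoid.Coprod A (Monoid.CoprodI fun _ : I => K) ⧸
      Subgroup.normalClosure (kRelators conj comm K)) ↔ C A ∧ C K)

/-- the relators `[h, k] = 1` for `h ∈ S` and `[k, d l d⁻¹] = 1` for `d ∈ D` -/
def cRelators (S D : Set A) (K : Type) [Group K] : Set (Monoid.Coprod A K) :=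
  {r | (∃ h ∈ S, ∃ k : K, r = (Monoid.Coprod.inl h * Monoid.Coprod.inr k) *
      (Monoid.Coprod.inr k * Monoid.Coprod.inl h)⁻¹) ∨
    ∃ d ∈ D, ∃ k l : K, r = (Monoid.Coprod.inr k *
        (Monoid.Coprod.inl d * Monoid.Coprod.inr l * (Monoid.Coprod.inl d)⁻¹)) *
      ((Monoid.Coprod.inl d * Monoid.Coprod.inr l * (Monoid.Coprod.inl d)⁻¹) *
        Monoid.Coprod.inr k)⁻¹}

/-- (3) free extensions of centralizers with commuting conjugates -/
def CentralizerExtensions (C : ∀ (G : Type) [Group G], Prop) : Prop :=
  ∀ (A : Type) [Group A] (S D : Set A) (K : Type) [Group K],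
    ((∀ k l : K, k * l = l * k) ∨ ∀ d ∈ D, d ∉ Subgroup.closure S) →
    (C (Monoid.Coprod A K ⧸ Subgroup.normalClosure (cRelators S D K)) ↔ C A ∧ C K)

end gp

section singular

variable {B : Type}

/-- the generator `σ_i` of the free group on all `σ_i` and `τ_i` -/
def sigma (i : B) : FreeGroup (B ⊕ B) := FreeGroup.of (Sum.inl i)

/-- the generator `τ_i` of the free group on all `σ_i` and `τ_i` -/
def tau (i : B) : FreeGroup (B ⊕ B) := FreeGroup.of (Sum.inr i)

/-- The relators of the singular Artin group of the Coxeter matrix `M` (the entry `0` stands for
infinity): with `m = M i j`, the braid relations of length `m` for `σ_i` and `σ_j`; `σ_i τ_i = τ_i σ_i`;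
`(σ_j σ_i σ_j ...) τ_k = τ_i (σ_j σ_i σ_j ...)` with `m - 1` factors in the brackets, where `k = i` if `m` is
even and `k = j` if `m` is odd, if `m` is finite; `τ_i τ_j = τ_j τ_i` if `m = 2`; and in addition
`τ_i ^ p = 1` (no relation for `p = 0`). -/
def singularRelators (M : CoxeterMatrix B) (p : ℕ) : Set (FreeGroup (B ⊕ B)) :=
  {r | (∃ i j, r = altProd (sigma i) (sigma j) (M i j) *
      (altProd (sigma j) (sigma i) (M i j))⁻¹) ∨
    (∃ i, r = tau i ^ p) ∨
    (∃ i, r = sigma i * tau i * (tau i * sigma i)⁻¹) ∨
    (∃ i j, 2 ≤ M i j ∧
      r = altProd (sigma j) (sigma i) (M i j - 1) * tau (if Even (M i j) then i else j) *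
        (tau i * altProd (sigma j) (sigma i) (M i j - 1))⁻¹) ∨
    ∃ i j, M i j = 2 ∧ r = tau i * tau j * (tau j * tau i)⁻¹}

/-- the singular Artin group (`p = 0`) -/
abbrev SingularArtin (M : CoxeterMatrix B) (p : ℕ) : Type :=
  PresentedGroup (singularRelators M p)

end singular

/-- (4) singular Artin groups -/
def SingularCase (C : ∀ (G : Type) [Group G], Prop) : Prop :=
  ∀ (B : Type) (M : CoxeterMatrix B) (p : ℕ), C (SingularArtin M p) ↔ C (Artin M)

theorem result (C : ∀ (G : Type) [Group G], Prop) (hC : ClosedE C) :
    ((∀ (S : Type) [Finite S] (A : CoxeterMatrix S), C A.Group) → RelativePresentations C) ∧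
      RelativeGraphProducts C ∧ CentralizerExtensions C ∧ SingularCase C := by
  refine ⟨fun hcox A I _ D h => ?_, fun A I _ _ conj comm K _ hK => ?_,
    fun A _ S D K _ hK => Run7.h872.SG.rc_mem hC S D K hK,
    fun B M p => Run7.h872.SG.sa_mem hC M p⟩
  · have h1 : C D.Extension ↔ C (Shephard (D.matrix h) (D.exponent h)) ∧ C A :=
      Run7.h872.SG.rb_mem hC hcox D.conj D.braid D.exp h.good
    have h2 : C (Shephard (D.matrix h) (D.exponent h)) ↔
        ParabolicsIn C (D.matrix h) (D.exponent h) :=
      Run7.h952.AR.main_irr hC hcox _ _ _ (Run7.h872.SG.adm h.good)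
    rw [h1, h2, and_comm]
  · exact Run7.h872.SG.rg_mem hC conj comm K hK

end Pool.Agent.Results.MP_9d1ffa_al.SingularArtinGroups
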