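import Pool.Agent.Run7.h550.TK.Main

/-!
# All extensions with kernels given by pairwise relations between torsion-generated groups

`C` is any class of groups with the closure properties `ClosedE C` which contains the groups `F ⋊ ℤ` for
all free groups `F` of any rank and all automorphisms of `F`. All this is published for the class of
groups which satisfy the Farrell–Jones conjecture (fibered version with finite wreath products,
`K`- and `L`-theory): the groups `F ⋊ ℤ` are due to Bestvina–Fujiwara–Wigglesworth and
Brück–Kielak–Wu.

Call a group `N` good if it is generated by its elements of finite order, these form finitely many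
conjugacy classes, and every group `G` with a normal subgroup isomorphic to `N` whose quotient is in `C`
is in `C`. No condition is imposed on the action of `G` on the kernel, so that this is a statement on
the mapping tori of all automorphisms of `N`.

1. Let `N` be generated by finitely many torsion-generated subgroups `A v`, the vertices `v` of a graph
  `Γ`, such that all relations between the `A v` are consequences of relations between two adjacent
  ones, and such that for each `v` there is an endomorphism of `N` which kills `A v` and is the identity
  on the others. If for each clique `Δ` of `Γ` the subgroup generated by the `A v`, `v ∈ Δ`, is good, then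
  `N` is good.
2. Graph products of good groups along finite graphs are good.
3. A Coxeter group of finite rank all of whose labels are even or infinite is good if its standard
  parabolic subgroups without infinite labels are good.
4. Every extension of a graph product of finite groups along a finite graph (for instance of a right-angled
  Coxeter group of finite rank) by a group in `C` is in `C`.

In 3. the hypothesis is known for the Farrell–Jones class: Coxeter groups of finite rank are CAT(0)
groups, have finitely many conjugacy classes of elements of finite order, and their outer
automorphism groups are finite if there are no infinite labels (Howlett–Rowley–Taylor). So the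
Farrell–Jones class is closed under all extensions by even Coxeter groups of finite rank.

Outline of the proof. If `v` and `w` are not adjacent, `N` is the amalgamated product of the subgroups
`N_v` and `N_w` generated by the `A u` with `u ≠ v`, respectively with `u ≠ w`. By the tree of this
amalgamated product elements of finite order are conjugate to elements of `N_v` or `N_w`; so by
induction they form finitely many conjugacy classes, and a power of each automorphism `φ` of `N`
preserves each of these classes, and hence the kernels `R_v`, `R_w` of the retractions of `N` onto `N_v`
and `N_w`, which are generated, as normal subgroups, by elements of finite order. The intersection of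
`R_v` and `R_w` acts freely on the tree, so it is a free group, and the quotient of `N ⋊ ℤ` by it embeds in
the product of the mapping tori of `N_v` and `N_w`, which are in `C` by induction.
-/

set_option autoImplicit false

namespace Pool.Agent.Results.MP_9d1ffa_al.TorsionGeneratedKernels

open Pool.Agent.Y110.FJ (ClosedE)
open Run7.h550.TK (PairSystem IsGraphProduct TorGen Good)

theorem result (C : ∀ (G : Type) [Group G], Prop) (hC : ClosedE C)
    (hF : ∀ (X : Type) (α : MulAut (FreeGroup X)),
      C (FreeGroup X ⋊[zpowersHom (MulAut (FreeGroup X)) α] Multiplicative ℤ)) :
    (∀ (N V : Type) [Group N] [Finite V] (Γ : SimpleGraph V) (A : V → Subgroup N),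
      PairSystem Γ A → (∀ v, TorGen (A v)) →
      (∀ Δ : Set V, Γ.IsClique Δ → Good C ↥(⨆ v ∈ Δ, A v)) → Good C N) ∧
    (∀ (N V : Type) [Group N] [Finite V] (Γ : SimpleGraph V) (A : V → Subgroup N),
      IsGraphProduct Γ A → (∀ v, Good C (A v)) → Good C N) ∧
    (∀ (W B : Type) [Group W] [Finite B] (M : CoxeterMatrix B) (cs : CoxeterSystem M W),
      (∀ i j, i ≠ j → Even (M i j)) →
      (∀ Δ : Set B, (∀ i ∈ Δ, ∀ j ∈ Δ, M i j ≠ 0) →
        Good C ↥(Subgroup.closure (cs.simple '' Δ))) → Good C W) ∧
    (∀ (G V : Type) [Group G] [Finite V] (N : Subgroup G) [N.Normal] (Γ : SimpleGraph V)
      (A : V → Subgroup N), IsGraphProduct Γ A → (∀ v, Finite (A v)) → C (G ⧸ N) → C G) := by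
  refine ⟨?_, ?_, ?_, ?_⟩
  · intro N V _ _ Γ A hA htor hcl
    exact Run7.h550.TK.good_main hC hF hA htor hcl
  · intro N V _ _ Γ A hA hg
    exact Run7.h550.TK.good_gp hC hF hA hg
  · intro W B _ _ M cs hM hcl
    exact Run7.h550.TK.good_cox hC hF hM cs hcl
  · intro G V _ _ N _ Γ A hA hfin hQ
    have h := Run7.h550.TK.good_gp hC hF hA fun v => Run7.h550.TK.good_finite hC (A v)
    exact h.ext G N ⟨MulEquiv.refl N⟩ hQ

end Pool.Agent.Results.MP_9d1ffa_al.TorsionGeneratedKernels
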